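import Pool.Agent.helper83.FI4B.Spec

/-!
# Row BAV of FI4+: the average over planes
-/

set_option autoImplicit false

namespace Pool.Agent.FI4B

open Pool.Agent.helper58.DC Pool.Agent.DI Pool.Agent.GR Pool.Agent.OB Pool.Agent.DR Pool.Agent.FI Pool.Agent.FI3 Pool.Agent.FI4

/-- additive characters with a given kernel of index `p` -/
theorem BAV_v (p : ℕ) (hp : p.Prime) (D : Type) [CommGroup D] [Finite D] :
    ∃ w : Subgroup D → D → ZMod p, ∀ V : Subgroup D, V.index = p →
      (∀ x y, w V (x * y) = w V x + w V y) ∧ ∀ u, w V u = 0 ↔ u ∈ V := by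
  have h : ∀ V : Subgroup D, ∃ w : D → ZMod p, V.index = p →
      (∀ x y, w (x * y) = w x + w y) ∧ ∀ u, w u = 0 ↔ u ∈ V := by
    intro V
    by_cases hV : V.index = p
    · have : Fact p.Prime := ⟨hp⟩
      have : NeZero p := ⟨hp.ne_zero⟩
      have hc : Nat.card (D ⧸ V) = p := hV
      have hc2 : Nat.card (Multiplicative (ZMod p)) = p := Nat.card_zmod p
      have e : (D ⧸ V) ≃* Multiplicative (ZMod p) := mulEquivOfPrimeCardEq hc hc2
      refine ⟨fun x => Multiplicative.toAdd (e (x : D ⧸ V)), fun _ => ⟨fun x y => ?_, fun u => ?_⟩⟩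
      · show Multiplicative.toAdd (e ((x * y : D) : D ⧸ V)) = _
        rw [QuotientGroup.mk_mul, map_mul, toAdd_mul]
      · show Multiplicative.toAdd (e (u : D ⧸ V)) = 0 ↔ _
        rw [toAdd_eq_zero, EmbeddingLike.map_eq_one_iff, QuotientGroup.eq_one_iff]
    · exact ⟨fun _ => 0, fun h => absurd h hV⟩
  choose w hw using h
  exact ⟨w, hw⟩

theorem BAV_pow (p : ℕ) (D : Type) [CommGroup D] (w : D → ZMod p)
    (hw : ∀ x y, w (x * y) = w x + w y) (x : D) (n : ℕ) : w (x ^ n) = w x * (n : ZMod p) := by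
  have h1 : w 1 = 0 := by
    have h := hw 1 1
    rw [mul_one] at h
    exact left_eq_add.1 h
  induction n with
  | zero => rw [pow_zero, h1, Nat.cast_zero, mul_zero]
  | succ n ih =>
    rw [pow_succ, hw, ih]
    push_cast
    ring

theorem BAV_bij (p : ℕ) (hp : p.Prime) (D : Type) [CommGroup D] [Finite D] (hD : IsPGroup p D)
    (s : ZMod p) (hs : s ≠ 0) : Function.Bijective (fun x : D => x ^ s.val) := by
  have : Fact p.Prime := ⟨hp⟩
  have : NeZero p := ⟨hp.ne_zero⟩
  obtain ⟨n, hn⟩ := IsPGroup.iff_card.1 hD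
  have h1 : (Nat.card D).Coprime s.val := by
    rw [hn]
    apply Nat.Coprime.pow_left
    rw [Nat.Prime.coprime_iff_not_dvd hp]
    intro h2
    have h3 : s.val ≠ 0 := by
      intro h4
      exact hs ((ZMod.val_eq_zero s).1 h4)
    exact absurd (Nat.le_of_dvd (Nat.pos_of_ne_zero h3) h2) (not_le.2 (ZMod.val_lt s))
  exact (powCoprime h1).bijective

theorem BAV_cnt {α : Type} [Fintype α] (P : α → Prop) [DecidablePred P] :
    {a | P a}.ncard = ∑ a, if P a then 1 else 0 := by
  rw [Set.ncard_eq_toFinset_card', Set.toFinset_ofPred, Finset.card_filter]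

theorem BAV (hBPL : BPL_stmt) : BAV_stmt := by
  classical
  intro p hp D _ _ hD c b S hS k hk u₀ hu₀ hku₀
  have : Fact p.Prime := ⟨hp⟩
  have : NeZero p := ⟨hp.ne_zero⟩
  have : Fintype D := Fintype.ofFinite D
  have : Fintype (Subgroup D) := Fintype.ofFinite _
  obtain ⟨w, hw⟩ := BAV_v p hp D
  -- the value of the characters
  have hφ : ∀ V : Subgroup D, V.index = p → ∀ (x y : D) (s t : ZMod p),
      w V (u₀ * x ^ s.val * y ^ t.val) = w V u₀ + w V x * s + w V y * t := by
    intro V hV x y s t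
    rw [(hw V hV).1, (hw V hV).1, BAV_pow p D (w V) (hw V hV).1, BAV_pow p D (w V) (hw V hV).1,
      ZMod.natCast_zmod_val, ZMod.natCast_zmod_val]
  have hmem : ∀ V : Subgroup D, V.index = p → ∀ (x y : D) (s t : ZMod p),
      (w V u₀ + w V x * s + w V y * t = 0 ↔ u₀ * x ^ s.val * y ^ t.val ∈ V) := by
    intro V hV x y s t
    rw [← hφ V hV x y s t]
    exact (hw V hV).2 _
  -- the plane lemma
  have hpl : ∀ x y : D, p ≤ S.card + ∑ q : ZMod p × ZMod p,
      if ((∀ H ∈ S, u₀ * x ^ q.1.val * y ^ q.2.val ∉ H) ∧ k (u₀ * x ^ q.1.val * y ^ q.2.val) ≠ 0)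
        then 1 else 0 := by
    intro x y
    have h1 := hBPL p {V : Subgroup D // V.index = p} S c (fun j => b j.1) (fun j => w j.1 u₀)
      (fun j => w j.1 x) (fun j => w j.1 y) (fun j => w j.1 u₀) (fun j => w j.1 x)
      (fun j => w j.1 y) (fun s t => k (u₀ * x ^ s.val * y ^ t.val))
      (by
        intro s t
        show k (u₀ * x ^ s.val * y ^ t.val) = _
        rw [hk, finsum_mem_def, finsum_eq_sum_of_fintype]
        congr 1
        have h2 : ∀ V : Subgroup D, Set.indicator {V : Subgroup D | V.index = p ∧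
            u₀ * x ^ s.val * y ^ t.val ∈ V} b V = if V.index = p then
              (if u₀ * x ^ s.val * y ^ t.val ∈ V then b V else 0) else 0 := by
          intro V
          rw [Set.indicator_apply]
          by_cases hV : V.index = p
          · by_cases hV2 : u₀ * x ^ s.val * y ^ t.val ∈ V
            · rw [if_pos hV, if_pos hV2, if_pos ⟨hV, hV2⟩]
            · rw [if_pos hV, if_neg hV2, if_neg fun h => hV2 h.2]
          · rw [if_neg hV, if_neg fun h => hV h.1]
        rw [Finset.sum_congr rfl fun V _ => h2 V, ← Finset.sum_filter,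
          Finset.sum_subtype (Finset.univ.filter fun V : Subgroup D => V.index = p)
            (p := fun V : Subgroup D => V.index = p) (fun V => by simp)]
        refine Finset.sum_congr rfl fun j _ => ?_
        by_cases hj : u₀ * x ^ s.val * y ^ t.val ∈ j.1
        · rw [if_pos hj, if_pos ((hmem j.1 j.2 x y s t).2 hj)]
        · rw [if_neg hj, if_neg fun h => hj ((hmem j.1 j.2 x y s t).1 h)])
      (by
        intro j h
        exact hu₀ j.1 j.2 (((hw j.1 (hS j.1 j.2)).2 u₀).1 h))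
      (by
        show k (u₀ * x ^ (0 : ZMod p).val * y ^ (0 : ZMod p).val) ≠ 0
        rw [ZMod.val_zero, pow_zero, pow_zero, mul_one, mul_one]
        exact hku₀)
    rw [BAV_cnt, Fintype.card_coe] at h1
    refine le_trans h1 (Nat.add_le_add_left (le_of_eq ?_) _)
    refine Finset.sum_congr rfl fun q _ => ?_
    have h3 : ((∀ j : S, w j.1 u₀ + w j.1 x * q.1 + w j.1 y * q.2 ≠ 0) ∧
        k (u₀ * x ^ q.1.val * y ^ q.2.val) ≠ 0) ↔
        ((∀ H ∈ S, u₀ * x ^ q.1.val * y ^ q.2.val ∉ H) ∧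
          k (u₀ * x ^ q.1.val * y ^ q.2.val) ≠ 0) := by
      refine and_congr_left fun _ => ⟨fun h H hH h4 => ?_, fun h j h4 => ?_⟩
      · exact h ⟨H, hH⟩ ((hmem H (hS H hH) x y q.1 q.2).2 h4)
      · exact h j.1 j.2 ((hmem j.1 (hS j.1 j.2) x y q.1 q.2).1 h4)
    by_cases h5 : ((∀ H ∈ S, u₀ * x ^ q.1.val * y ^ q.2.val ∉ H) ∧
        k (u₀ * x ^ q.1.val * y ^ q.2.val) ≠ 0)
    · rw [if_pos h5, if_pos (h3.2 h5)]
    · rw [if_neg h5, if_neg fun h => h5 (h3.1 h)]
  obtain ⟨I, hI⟩ : ∃ I : D → ℕ, ∀ u, I u = if ((∀ H ∈ S, u ∉ H) ∧ k u ≠ 0) then 1 else 0 :=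
    ⟨_, fun _ => rfl⟩
  have hT : {u : D | (∀ H ∈ S, u ∉ H) ∧ k u ≠ 0}.ncard = ∑ u, I u := by
    rw [BAV_cnt]
    exact Finset.sum_congr rfl fun u _ => (hI u).symm
  rw [hT]
  have hI1 : ∀ u, I u ≤ 1 := by
    intro u
    rw [hI]
    split_ifs <;> omega
  have hpl2 : ∀ x y : D, p ≤ S.card + ∑ q : ZMod p × ZMod p, I (u₀ * x ^ q.1.val * y ^ q.2.val) := by
    intro x y
    refine le_trans (hpl x y) (Nat.add_le_add_left (le_of_eq ?_) _)
    exact Finset.sum_congr rfl fun q _ => (hI _).symm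
  have hcD : Fintype.card D = Nat.card D := Nat.card_eq_fintype_card.symm
  -- summation
  have hsum : ∑ _x : D, ∑ _y : D, p ≤ ∑ x : D, ∑ y : D,
      (S.card + ∑ q : ZMod p × ZMod p, I (u₀ * x ^ q.1.val * y ^ q.2.val)) :=
    Finset.sum_le_sum fun x _ => Finset.sum_le_sum fun y _ => hpl2 x y
  have hsw : ∑ x : D, ∑ y : D, ∑ q : ZMod p × ZMod p, I (u₀ * x ^ q.1.val * y ^ q.2.val) =
      ∑ q : ZMod p × ZMod p, ∑ x : D, ∑ y : D, I (u₀ * x ^ q.1.val * y ^ q.2.val) := by
    rw [Finset.sum_congr rfl fun x _ => Finset.sum_comm, Finset.sum_comm]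
  have hone : ∀ q : ZMod p × ZMod p, q ≠ 0 →
      ∑ x : D, ∑ y : D, I (u₀ * x ^ q.1.val * y ^ q.2.val) = Nat.card D * ∑ u, I u := by
    intro q hq
    by_cases h1 : q.1 = 0
    · have h2 : q.2 ≠ 0 := fun h => hq (Prod.ext h1 h)
      have h3 : ∀ x : D, ∑ y : D, I (u₀ * x ^ q.1.val * y ^ q.2.val) = ∑ u, I u := by
        intro x
        have h4 : Function.Bijective (fun y : D => u₀ * x ^ q.1.val * y ^ q.2.val) :=
          (Equiv.mulLeft (u₀ * x ^ q.1.val)).bijective.comp (BAV_bij p hp D hD q.2 h2)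
        exact h4.sum_comp I
      rw [Finset.sum_congr rfl fun x _ => h3 x, Finset.sum_const, Finset.card_univ, smul_eq_mul, hcD]
    · rw [Finset.sum_comm]
      have h3 : ∀ y : D, ∑ x : D, I (u₀ * x ^ q.1.val * y ^ q.2.val) = ∑ u, I u := by
        intro y
        have h4 : Function.Bijective (fun x : D => u₀ * x ^ q.1.val * y ^ q.2.val) :=
          (Equiv.mulRight (y ^ q.2.val)).bijective.comp
            ((Equiv.mulLeft u₀).bijective.comp (BAV_bij p hp D hD q.1 h1))
        exact h4.sum_comp I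
      rw [Finset.sum_congr rfl fun y _ => h3 y, Finset.sum_const, Finset.card_univ, smul_eq_mul, hcD]
  have hzero : ∑ x : D, ∑ y : D, I (u₀ * x ^ (0 : ZMod p × ZMod p).1.val *
      y ^ (0 : ZMod p × ZMod p).2.val) ≤ Nat.card D * Nat.card D := by
    have h1 : ∑ x : D, ∑ y : D, I (u₀ * x ^ (0 : ZMod p × ZMod p).1.val *
      y ^ (0 : ZMod p × ZMod p).2.val) ≤ ∑ _x : D, ∑ _y : D, 1 :=
      Finset.sum_le_sum fun x _ => Finset.sum_le_sum fun y _ => hI1 _
    rw [Finset.sum_const, Finset.sum_const, Finset.card_univ, smul_eq_mul, smul_eq_mul, mul_one,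
      hcD] at h1
    exact h1
  have htot : ∑ q : ZMod p × ZMod p, ∑ x : D, ∑ y : D, I (u₀ * x ^ q.1.val * y ^ q.2.val) ≤
      Nat.card D * Nat.card D + (p ^ 2 - 1) * (Nat.card D * ∑ u, I u) := by
    rw [← Finset.add_sum_erase Finset.univ _ (Finset.mem_univ (0 : ZMod p × ZMod p))]
    refine Nat.add_le_add hzero (le_of_eq ?_)
    rw [Finset.sum_congr rfl fun q hq => hone q (Finset.ne_of_mem_erase hq), Finset.sum_const,
      Finset.card_erase_of_mem (Finset.mem_univ _), Finset.card_univ, smul_eq_mul,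
      Fintype.card_prod, ZMod.card, sq]
  have hL : ∑ _x : D, ∑ _y : D, p = Nat.card D * (Nat.card D * p) := by
    rw [Finset.sum_const, Finset.sum_const, Finset.card_univ, smul_eq_mul, smul_eq_mul, hcD]
  have hR : ∑ x : D, ∑ y : D,
      (S.card + ∑ q : ZMod p × ZMod p, I (u₀ * x ^ q.1.val * y ^ q.2.val)) =
      Nat.card D * (Nat.card D * S.card) +
        ∑ x : D, ∑ y : D, ∑ q : ZMod p × ZMod p, I (u₀ * x ^ q.1.val * y ^ q.2.val) := by
    rw [Finset.sum_congr rfl fun x _ => Finset.sum_add_distrib, Finset.sum_add_distrib,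
      Finset.sum_const, Finset.sum_const, Finset.card_univ, smul_eq_mul, smul_eq_mul, hcD]
  rw [hL, hR, hsw] at hsum
  have hfin := le_trans hsum (Nat.add_le_add_left htot _)
  have hpos : 0 < Nat.card D := Nat.card_pos
  have h9 : Nat.card D * (p * Nat.card D) ≤ Nat.card D * ((S.card + 1) * Nat.card D +
      (p ^ 2 - 1) * ∑ u, I u) := by
    have e1 : Nat.card D * (p * Nat.card D) = Nat.card D * (Nat.card D * p) := by ring
    have e2 : Nat.card D * ((S.card + 1) * Nat.card D + (p ^ 2 - 1) * ∑ u, I u) =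
        Nat.card D * (Nat.card D * S.card) + (Nat.card D * Nat.card D +
          (p ^ 2 - 1) * (Nat.card D * ∑ u, I u)) := by ring
    rw [e1, e2]
    exact hfin
  exact Nat.le_of_mul_le_mul_left h9 hpos

end Pool.Agent.FI4B
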