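import Pool.Agent.helper83.FI4B.SpecE2

/-!
# Row MNE2 of FI4+: the traces of an automorphism on `B` and on its Brauer correspondent
-/

set_option autoImplicit false

namespace Pool.Agent.FI4B

open Pool.Agent.helper58.DC Pool.Agent.DI Pool.Agent.GR Pool.Agent.OB Pool.Agent.DR Pool.Agent.FI Pool.Agent.FI3 Pool.Agent.FI4 Pool.Agent.FI4I Pool.Agent.FI4E

/-- `O_p(G)` exists. -/
theorem MNE2_op (p : ℕ) (hp : p.Prime) (G : Type) [Group G] [Finite G] : ∃ R : Subgroup G, IsOp p (⊤ : Subgroup G) R := by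
  classical
  have : Fact p.Prime := ⟨hp⟩
  obtain ⟨R, hR, hmax⟩ := Set.exists_max_image {Q : Subgroup G | Q ≤ ⊤ ∧ IsPGroup p Q ∧ (⊤ : Subgroup G) ≤ Subgroup.normalizer (Q : Set G)}
    (fun Q => Nat.card Q) (Set.toFinite _) ⟨⊥, le_top, IsPGroup.of_bot, by
      rw [top_le_iff, Subgroup.normalizer_eq_top_iff]
      infer_instance⟩
  refine ⟨R, hR, fun Q hQ => ?_⟩
  obtain ⟨-, hQp, hQn⟩ := hQ
  obtain ⟨-, hRp, hRn⟩ := hR
  rw [top_le_iff, Subgroup.normalizer_eq_top_iff] at hQn hRn
  have hsup : Nat.card (Q ⊔ R : Subgroup G) ≤ Nat.card R := by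
    refine hmax (Q ⊔ R) ⟨le_top, IsPGroup.to_sup_of_normal_right hQp hRp, ?_⟩
    rw [top_le_iff, Subgroup.normalizer_eq_top_iff]
    infer_instance
  have heq : R = Q ⊔ R := Subgroup.eq_of_le_of_card_ge le_sup_right hsup
  rw [heq]
  exact le_sup_left

/-- the part of `m` made of the primes below `p`, and the rest -/
theorem MNE2_split (p : ℕ) (m : ℕ) : 0 < m → ∃ a b : ℕ, 0 < a ∧ 0 < b ∧ m = a * b ∧
    (∀ q : ℕ, q.Prime → q ∣ a → q < p) ∧ ∀ q : ℕ, q.Prime → q ∣ b → p ≤ q := by
  induction m using Nat.recOnMul with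
  | zero => exact fun h => absurd h (lt_irrefl 0)
  | one => exact fun _ => ⟨1, 1, one_pos, one_pos, rfl, fun q hq h => absurd (Nat.dvd_one.1 h) hq.ne_one,
      fun q hq h => absurd (Nat.dvd_one.1 h) hq.ne_one⟩
  | prime r hr =>
    intro _
    by_cases h : r < p
    · exact ⟨r, 1, hr.pos, one_pos, (mul_one r).symm, fun q hq hqr => by rwa [(Nat.prime_dvd_prime_iff_eq hq hr).1 hqr],
        fun q hq h => absurd (Nat.dvd_one.1 h) hq.ne_one⟩
    · exact ⟨1, r, one_pos, hr.pos, (one_mul r).symm, fun q hq h => absurd (Nat.dvd_one.1 h) hq.ne_one,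
        fun q hq hqr => by rw [(Nat.prime_dvd_prime_iff_eq hq hr).1 hqr]; exact not_lt.1 h⟩
  | mul x y hx hy =>
    intro hxy
    obtain ⟨a, b, ha, hb, e, h1, h2⟩ := hx (Nat.pos_of_mul_pos_right hxy)
    obtain ⟨a', b', ha', hb', e', h1', h2'⟩ := hy (Nat.pos_of_mul_pos_left hxy)
    refine ⟨a * a', b * b', Nat.mul_pos ha ha', Nat.mul_pos hb hb', by rw [e, e']; ring, fun q hq h => ?_, fun q hq h => ?_⟩
    · exact ((Nat.Prime.dvd_mul hq).1 h).elim (h1 q hq) (h1' q hq)
    · exact ((Nat.Prime.dvd_mul hq).1 h).elim (h2 q hq) (h2' q hq)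

section

variable {G : Type} [Group G]

theorem MNE2_am_pow {α : MulAut G} {D : Subgroup G} (h : am α D = D) (k : ℕ) : am (α ^ k) D = D := by
  induction k with
  | zero => rw [pow_zero, am_one]
  | succ k ih => rw [pow_succ, am_mul, h, ih]

theorem MNE2_stb_pow [Finite G] (hIM : IM_stmt) {M : Ideal (integralClosure ℤ ℂ)} {χ : G → ℂ} {α : MulAut G}
    (h : Stb M χ α) (k : ℕ) : Stb M χ (α ^ k) := by
  induction k with
  | zero =>
    have e : funMap (α ^ 0) χ = χ := by
      funext x
      rw [pow_zero]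
      simp [funMap]
    unfold Stb
    rw [e]
    exact (hIM G M χ χ χ).1
  | succ k ih =>
    unfold Stb
    rw [pow_succ, FI4E.funMap_mul]
    have h1 : Induces M (funMap (α ^ k) (funMap α χ)) (funMap (α ^ k) χ) :=
      ((hIM G M (funMap α χ) χ χ).2.2.2 (α ^ k)).2 h
    exact (hIM G M _ _ _).2.2.1 h1 ih

theorem MNE2_LL [Finite G] (p : ℕ) (M : Ideal (integralClosure ℤ ℂ)) (χ : G → ℂ) (H : Subgroup G) :
    tL p M χ H 1 = LL p M χ H := by
  unfold tL tS LL
  refine finsum_congr fun ψ => finsum_congr fun _ => ?_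
  have e : funMap (1 : MulAut G) ψ = ψ := by
    funext x
    simp [funMap]
  rw [e]

end

/-- the arithmetic at the end -/
theorem MNE2_num (p m : ℕ) (e z : ℤ) (hp : p.Prime) (hm : 1 < m) (hq : ∀ q : ℕ, q.Prime → q ∣ m → q < p)
    (he : |e| ≤ 1) (h : (Nat.totient m : ℤ) * (p * e) = m * z) : e = 0 := by
  have hcop : Nat.Coprime m p := by
    rw [Nat.coprime_comm, hp.coprime_iff_not_dvd]
    intro h1
    exact absurd (hq p hp h1) (lt_irrefl p)
  have h1 : (m : ℤ) ∣ (p : ℤ) * ((Nat.totient m : ℤ) * e) := ⟨z, by rw [← h]; ring⟩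
  have h2 : (m : ℤ) ∣ (Nat.totient m : ℤ) * e :=
    IsCoprime.dvd_of_dvd_mul_left (Nat.isCoprime_iff_coprime.2 hcop) h1
  have h3 : Nat.totient m < m := Nat.totient_lt m hm
  have h4 : 0 < Nat.totient m := Nat.totient_pos.2 (by omega)
  have h5 : |(Nat.totient m : ℤ) * e| < m := by
    rw [abs_mul, abs_of_nonneg (by positivity)]
    calc (Nat.totient m : ℤ) * |e| ≤ (Nat.totient m : ℤ) * 1 :=
          mul_le_mul_of_nonneg_left he (by positivity)
      _ < m := by rw [mul_one]; exact_mod_cast h3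
  have h6 : (Nat.totient m : ℤ) * e = 0 := Int.eq_zero_of_abs_lt_dvd h2 h5
  rcases mul_eq_zero.1 h6 with h7 | h7
  · exfalso
    have : Nat.totient m = 0 := by exact_mod_cast h7
    omega
  · exact h7

theorem MNE2 (hTGE2 : TGE2_stmt) (hDV4E : DV4E_stmt) (hOPD : OPD_stmt) (hBHT : BHT_stmt) (hBBD : BBD_stmt) (hONB2 : ONB2_stmt) (hMN2 : MN2_stmt) (hBDE : BDE_stmt) (hPRK : PRK_stmt) (hBTR : BTR_stmt) (hBAA : BAA_stmt) (hBCL : BCL_stmt) (hIM : IM_stmt) : MNE2_stmt := by
  classical
  intro p M hS hp3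
  suffices H : ∀ n : ℕ, ∀ (G : Type) [Group G] [Finite G], Nat.card G = n → ∀ (D : Subgroup G) (x : G) (θ χ : G → ℂ),
      Rt p M D x θ χ → Hy2 p M D θ → ∀ α : MulAut G, am α D = D → Stb M χ α → tL p M χ ⊤ α = tL p M χ (nz D) α by
    intro G _ _ D x θ χ hR hH α hα hst
    exact H _ G rfl D x θ χ hR hH α hα hst
  intro n
  induction n using Nat.strong_induction_on with
  | _ n ih =>
    intro G _ _ hn D x θ χ hR hH α hα hst
    obtain ⟨R, hRop⟩ := MNE2_op p hS.pr G
    have hRD := hOPD p M hS G D x θ χ hR R hRop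
    by_cases hne : R = D
    · have h1 : (⊤ : Subgroup G) ≤ Subgroup.normalizer (R : Set G) := hRop.1.2.2
      have h2 : nz D = ⊤ := by
        rw [← hne]
        exact top_le_iff.1 h1
      rw [h2]
    · obtain ⟨l, hl, hl1, hlp⟩ := hBBD p M hS G D x θ χ hR hH
      obtain ⟨l', hl', hl1', hlp'⟩ := hONB2 p M hS G D x θ χ hR hH
      have hLL := hMN2 p M hS G D x θ χ hR hH
      have htop : ∀ β : MulAut G, am β (⊤ : Subgroup G) = ⊤ := fun β =>
        (hBAA G M p β ⊥ ⊥ ⊥ χ χ χ).1.2.2.2.2.2.1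
      have hnz : ∀ β : MulAut G, am β D = D → am β (nz D) = nz D := by
        intro β hβ
        have h2 := (hBAA G M p β D ⊥ ⊥ χ χ χ).1.2.1
        rw [hβ] at h2
        exact h2.symm
      have hblk : ∀ (β : MulAut G) (H : Subgroup G), am β H = H → Stb M χ β → ∀ ψ ∈ Blk M χ H, funMap β ψ ∈ Blk M χ H := by
        intro β H hβ hs ψ hψ
        refine ⟨?_, ?_⟩
        · have h2 := (hBAA G M p β ⊥ ⊥ H χ ψ χ).2.2.1.1 hψ.1
          rwa [hβ] at h2
        · have h2 : Induces M (funMap β ψ) (funMap β χ) := ((hIM G M ψ χ χ).2.2.2 β).2 hψ.2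
          exact (hIM G M _ _ _).2.2.1 h2 hs
      have hG0 : (Nat.card G : ℂ) ≠ 0 := by exact_mod_cast Nat.card_pos.ne'
      -- the claim for automorphisms whose order has only small prime divisors
      have hclaim : ∀ m : ℕ, ∀ β : MulAut G, orderOf β = m → am β D = D → Stb M χ β →
          (∀ q : ℕ, q.Prime → q ∣ m → q < p) → tL p M χ ⊤ β = tL p M χ (nz D) β := by
        intro m
        induction m using Nat.strong_induction_on with
        | _ m ihm =>
          intro β hβm hβD hβs hsm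
          have hm0 : 0 < m := by rw [← hβm]; exact orderOf_pos β
          by_cases hm1 : m = 1
          · have hβ1 : β = 1 := by
              rw [hm1] at hβm
              exact orderOf_eq_one_iff.1 hβm
            rw [hβ1, MNE2_LL, MNE2_LL]
            exact hLL
          · have hm2 : 1 < m := by omega
            have hβp : β ^ m = 1 := by rw [← hβm]; exact pow_orderOf_eq_one β
            have h1 := hTGE2 p M hS G D x θ χ hR hH R hRop hRD hne β hβD hβs
              (fun G' _ _ hlt D' x' θ' χ' hR' hH' β' hβ' hstβ =>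
                ih (Nat.card G') (by rw [← hn]; exact hlt) G' rfl D' x' θ' χ' hR' hH' β' hβ' hstβ)
            obtain ⟨e, he⟩ := hDV4E p M hS G D x θ χ hR (hBHT p M hS G D x θ χ hR hH) R hRop hRD hne β hβs
              m hm0 hβp hp3 hsm
            have hΔ : tL p M χ ⊤ β - tL p M χ (nz D) β = (p : ℂ) * e := by
              rw [h1] at he
              apply mul_left_cancel₀ hG0
              rw [he]
              ring
            have b1 : ‖tL p M χ ⊤ β‖ ≤ l := hBDE p M hS G ⊤ (Blk M χ ⊤) (hBCL G M χ ⊤) β (htop _)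
              (hblk _ _ (htop _) hβs) l hl
            have b2 : ‖tL p M χ (nz D) β‖ ≤ l' := hBDE p M hS G (nz D) (Blk M χ (nz D)) (hBCL G M χ (nz D)) β
              (hnz _ hβD) (hblk _ _ (hnz _ hβD) hβs) l' hl'
            have he1 : |e| ≤ 1 := by
              by_contra hcon
              have h2 : (2 : ℤ) ≤ |e| := by omega
              have h3 : (2 : ℝ) ≤ |(e : ℝ)| := by exact_mod_cast h2
              have h4 : ‖(p : ℂ) * e‖ ≤ l + l' := by
                rw [← hΔ]
                exact (norm_sub_le _ _).trans (add_le_add b1 b2)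
              rw [norm_mul, Complex.norm_natCast, Complex.norm_intCast] at h4
              have h5 : (p : ℝ) * 2 ≤ l + l' := by
                calc (p : ℝ) * 2 ≤ p * |(e : ℝ)| := by gcongr
                  _ ≤ l + l' := h4
              have h6 : p * 2 ≤ l + l' := by exact_mod_cast h5
              omega
            obtain ⟨⟨a, ha⟩, hj1⟩ := hBTR p M hS G χ ⊤ β (htop β) hβs m hm0 hβp
            obtain ⟨⟨a', ha'⟩, hj2⟩ := hBTR p M hS G χ (nz D) β (hnz β hβD) hβs m hm0 hβp
            have hsum : ∑ j ∈ Finset.range m, (tL p M χ ⊤ (β ^ j) - tL p M χ (nz D) (β ^ j)) =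
                (m : ℂ) * ((a : ℂ) - a') := by
              rw [Finset.sum_sub_distrib, ha, ha']
              ring
            have hterm : ∀ j ∈ Finset.range m, tL p M χ ⊤ (β ^ j) - tL p M χ (nz D) (β ^ j) =
                if m.Coprime j then (p : ℂ) * e else 0 := by
              intro j hj
              by_cases hc : m.Coprime j
              · rw [if_pos hc, hj1 j hc.symm, hj2 j hc.symm, hΔ]
              · rw [if_neg hc, sub_eq_zero]
                have hord : orderOf (β ^ j) = m / Nat.gcd m j := by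
                  rw [orderOf_pow, hβm]
                have hg1 : 1 < Nat.gcd m j := by
                  have hg0 : 0 < Nat.gcd m j := Nat.gcd_pos_of_pos_left j hm0
                  have hg2 : Nat.gcd m j ≠ 1 := hc
                  omega
                refine ihm (m / Nat.gcd m j) (Nat.div_lt_self hm0 hg1) (β ^ j) hord (MNE2_am_pow hβD j)
                  (MNE2_stb_pow hIM hβs j) fun q hq hqd => hsm q hq (hqd.trans ?_)
                exact Nat.div_dvd_of_dvd (Nat.gcd_dvd_left m j)
            rw [Finset.sum_congr rfl hterm, ← Finset.sum_filter, Finset.sum_const, nsmul_eq_mul] at hsum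
            have htot : ((Finset.range m).filter fun j => m.Coprime j).card = Nat.totient m :=
              (Nat.totient_eq_card_coprime m).symm
            rw [htot] at hsum
            have hint : (Nat.totient m : ℤ) * (p * e) = m * ((a : ℤ) - a') := by
              exact_mod_cast hsum
            have he0 := MNE2_num p m e _ hS.pr hm2 hsm he1 hint
            rw [he0, Int.cast_zero, mul_zero] at hΔ
            exact sub_eq_zero.1 hΔ
      obtain ⟨m₁, m₂, hm₁, hm₂, hm, hq₁, hq₂⟩ := MNE2_split p (orderOf α) (orderOf_pos α)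
      have hcop : Nat.Coprime m₁ m₂ := by
        refine Nat.Coprime.symm (Nat.coprime_of_dvd fun q hq h1 h2 => ?_)
        exact absurd (hq₁ q hq h2) (not_lt.2 (hq₂ q hq h1))
      obtain ⟨k, hk₁, hk₂⟩ := Nat.chineseRemainder hcop 1 0
      have hαm : α ^ (m₁ * m₂) = 1 := by
        rw [← hm]
        exact pow_orderOf_eq_one α
      have hk : (α ^ k) ^ m₁ = 1 := by
        obtain ⟨j, hj⟩ := (Nat.modEq_zero_iff_dvd).1 hk₂
        have e : k * m₁ = (m₁ * m₂) * j := by
          rw [hj]
          ring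
        rw [← pow_mul, e, pow_mul, hαm, one_pow]
      have h4 := hclaim (orderOf (α ^ k)) (α ^ k) rfl (MNE2_am_pow hα k) (MNE2_stb_pow hIM hst k)
        (fun q hq hqd => hq₁ q hq (hqd.trans (orderOf_dvd_of_pow_eq_one hk)))
      have h5 := hPRK p M hS G χ ⊤ α (htop α) hst l hl m₁ m₂ k hm₁ hm₂ hαm
        (fun q hq hqd => by have := hq₂ q hq hqd; omega) hk₁
      have h6 := hPRK p M hS G χ (nz D) α (hnz α hα) hst l' hl' m₁ m₂ k hm₁ hm₂ hαm
        (fun q hq hqd => by have := hq₂ q hq hqd; omega) hk₁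
      rw [← h5, ← h6, h4]

end Pool.Agent.FI4B
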